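import Mathlib

/-!
A counting lemma: if a set `E` of `k`-tuples has density `d`, then the set of pairs of `k`-tuples
all of whose mixtures are in `E` has density at least `d ^ (2 ^ k)`.
-/

namespace Pool.Agent.H23L

open Finset

open scoped Classical in
/-- The pairs of tuples all of whose mixtures are in `E`. -/
noncomputable def dbl {I X : Type} [Fintype I] [Fintype X] (E : Finset (I → X)) :
    Finset (I → X × X) :=
  univ.filter fun y => ∀ g : I → Bool, (fun i => if g i then (y i).2 else (y i).1) ∈ E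

theorem mem_dbl {I X : Type} [Fintype I] [Fintype X] {E : Finset (I → X)} {y : I → X × X} :
    y ∈ dbl E ↔ ∀ g : I → Bool, (fun i => if g i then (y i).2 else (y i).1) ∈ E := by
  classical
  simp [dbl]

theorem sum_pow_ge {ι : Type} (s : Finset ι) (f : ι → ℝ) (hf : ∀ i ∈ s, 0 ≤ f i) (n : ℕ)
    (hs : 0 < s.card) : (s.card : ℝ) * ((∑ i ∈ s, f i) / s.card) ^ n ≤ ∑ i ∈ s, f i ^ n := by
  have hc : (0 : ℝ) < s.card := by exact_mod_cast hs
  have h1 := Real.pow_arith_mean_le_arith_mean_pow s (fun _ => (s.card : ℝ)⁻¹) f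
    (fun _ _ => by positivity) (by simp [hc.ne']) hf n
  rw [← Finset.mul_sum, ← Finset.mul_sum] at h1
  have h2 := mul_le_mul_of_nonneg_left h1 hc.le
  calc (s.card : ℝ) * ((∑ i ∈ s, f i) / s.card) ^ n
      = (s.card : ℝ) * ((s.card : ℝ)⁻¹ * ∑ i ∈ s, f i) ^ n := by
        congr 2; rw [div_eq_inv_mul]
    _ ≤ (s.card : ℝ) * ((s.card : ℝ)⁻¹ * ∑ i ∈ s, f i ^ n) := h2
    _ = ∑ i ∈ s, f i ^ n := by field_simp

theorem fin_calc {P : Type} [Fintype P] {q e : ℝ} {k d : ℕ} {a : P → ℝ} {b : P → ℕ}
    (hq0 : 0 < q)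
    (h1 : q ^ 2 * ((∑ p, a p / q ^ k) / q ^ 2) ^ 2 ^ k ≤ ∑ p, (a p / q ^ k) ^ 2 ^ k)
    (h2 : q ^ k * (e / q ^ k) ^ 2 ≤ ∑ p, a p) (hd : d = ∑ p, b p)
    (ih : ∀ p, (a p / q ^ k) ^ 2 ^ k ≤ b p / q ^ (2 * k)) :
    (e / q ^ (k + 1)) ^ 2 ^ (k + 1) ≤ d / q ^ (2 * (k + 1)) := by
  have h3 : (e / q ^ (k + 1)) ^ 2 ≤ (∑ p, a p / q ^ k) / q ^ 2 := by
    rw [← Finset.sum_div]
    rw [le_div_iff₀ (by positivity), le_div_iff₀ (by positivity)]
    refine le_trans (le_of_eq ?_) h2
    rw [pow_succ q k]
    field_simp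
  have h4 : ((∑ p, a p / q ^ k) / q ^ 2) ^ 2 ^ k ≤
      (∑ p, (a p / q ^ k) ^ 2 ^ k) / q ^ 2 := by
    rw [le_div_iff₀ (by positivity), mul_comm]
    exact h1
  have h5 : ∑ p, (a p / q ^ k) ^ 2 ^ k ≤ ∑ p, (b p : ℝ) / q ^ (2 * k) :=
    Finset.sum_le_sum fun p _ => ih p
  calc (e / q ^ (k + 1)) ^ 2 ^ (k + 1)
      = ((e / q ^ (k + 1)) ^ 2) ^ 2 ^ k := by rw [← pow_mul]; congr 1; ring
    _ ≤ ((∑ p, a p / q ^ k) / q ^ 2) ^ 2 ^ k := pow_le_pow_left₀ (by positivity) h3 _
    _ ≤ (∑ p, (a p / q ^ k) ^ 2 ^ k) / q ^ 2 := h4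
    _ ≤ (∑ p, (b p : ℝ) / q ^ (2 * k)) / q ^ 2 := div_le_div_of_nonneg_right h5 (by positivity)
    _ = d / q ^ (2 * (k + 1)) := by
        rw [hd, ← Finset.sum_div]
        push_cast
        rw [div_div]
        congr 1
        ring

open scoped Classical in
theorem dbl_fin (X : Type) [Fintype X] [Nonempty X] (k : ℕ) (E : Finset (Fin k → X)) :
    ((E.card : ℝ) / (Fintype.card X : ℝ) ^ k) ^ (2 ^ k) ≤
      (dbl E).card / (Fintype.card X : ℝ) ^ (2 * k) := by
  set q : ℝ := (Fintype.card X : ℝ) with hq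
  have hq0 : 0 < q := by rw [hq]; exact_mod_cast Fintype.card_pos
  induction k with
  | zero =>
    simp only [pow_zero, mul_zero, div_one, pow_one]
    have : E.card ≤ (dbl E).card := by
      rcases E.eq_empty_or_nonempty with h | ⟨x, hx⟩
      · simp [h]
      · have h1 : (fun i : Fin 0 => i.elim0 : Fin 0 → X × X) ∈ dbl E := by
          rw [mem_dbl]
          intro g
          have e0 : ∀ y y' : Fin 0 → X, y = y' := fun y y' => funext fun i => i.elim0
          have e1 : (fun i : Fin 0 => if g i = true then (i.elim0 : X × X).2 else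
              (i.elim0 : X × X).1) = x := e0 _ _
          rw [e1]
          exact hx
        have h2 : 0 < (dbl E).card := Finset.card_pos.2 ⟨_, h1⟩
        have h3 : E.card ≤ 1 := by
          have := Finset.card_le_univ E
          simpa using this
        omega
    exact_mod_cast this
  | succ k ih =>
    -- sections
    let S : X × X → Finset (Fin k → X) := fun p =>
      univ.filter fun x => Fin.cons (α := fun _ => X) p.1 x ∈ E ∧
        Fin.cons (α := fun _ => X) p.2 x ∈ E
    have hS : ∀ p x, x ∈ S p ↔ Fin.cons (α := fun _ => X) p.1 x ∈ E ∧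
        Fin.cons (α := fun _ => X) p.2 x ∈ E := by intro p x; simp [S]
    have hcard : (dbl E).card = ∑ p : X × X, (dbl (S p)).card := by
      rw [← Finset.card_sigma]
      symm
      refine Finset.card_bij (fun q _ => Fin.cons (α := fun _ => X × X) q.1 q.2) ?_ ?_ ?_
      · rintro ⟨p, y⟩ h
        rw [Finset.mem_sigma] at h
        have h2 := mem_dbl.1 h.2
        rw [mem_dbl]
        intro g
        have h3 := h2 (fun i => g i.succ)
        rw [hS] at h3
        have : (fun i => if g i then (Fin.cons (α := fun _ => X × X) p y i).2 else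
            (Fin.cons (α := fun _ => X × X) p y i).1) =
            Fin.cons (α := fun _ => X) (if g 0 then p.2 else p.1)
              (fun i => if g i.succ then (y i).2 else (y i).1) := by
          funext i
          refine Fin.cases ?_ (fun i => ?_) i <;> simp
        rw [this]
        split_ifs
        · exact h3.2
        · exact h3.1
      · rintro ⟨p, y⟩ _ ⟨p', y'⟩ _ h
        have := Fin.cons_injective2 h
        simp only [Sigma.mk.injEq, heq_eq_eq]
        exact this
      · intro y hy
        refine ⟨⟨y 0, Fin.tail y⟩, ?_, Fin.cons_self_tail y⟩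
        rw [Finset.mem_sigma]
        refine ⟨mem_univ _, ?_⟩
        rw [mem_dbl]
        intro g
        rw [hS]
        rw [mem_dbl] at hy
        constructor
        · have := hy (Fin.cons (α := fun _ => Bool) false g)
          convert this using 1
          funext i
          refine Fin.cases ?_ (fun i => ?_) i <;> simp [Fin.tail]
        · have := hy (Fin.cons (α := fun _ => Bool) true g)
          convert this using 1
          funext i
          refine Fin.cases ?_ (fun i => ?_) i <;> simp [Fin.tail]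
    -- degrees
    let dg : (Fin k → X) → ℕ := fun x => (univ.filter fun a => Fin.cons (α := fun _ => X) a x ∈ E).card
    have hdg : (E.card : ℝ) = ∑ x, (dg x : ℝ) := by
      have : E.card = ∑ x, dg x := by
        rw [← Finset.card_sigma]
        symm
        refine Finset.card_bij (fun q _ => Fin.cons (α := fun _ => X) q.2 q.1) ?_ ?_ ?_
        · rintro ⟨x, a⟩ h
          simpa using h
        · rintro ⟨x, a⟩ _ ⟨x', a'⟩ _ h
          have := Fin.cons_injective2 h
          simp only [Sigma.mk.injEq, heq_eq_eq]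
          exact ⟨this.2, this.1⟩
        · intro y hy
          refine ⟨⟨Fin.tail y, y 0⟩, ?_, Fin.cons_self_tail y⟩
          simpa [Fin.cons_self_tail] using hy
      rw [this]; push_cast; rfl
    have hSsum : ∑ p : X × X, ((S p).card : ℝ) = ∑ x, (dg x : ℝ) ^ 2 := by
      have : ∑ p : X × X, (S p).card = ∑ x, (dg x) ^ 2 := by
        rw [← Finset.card_sigma]
        have e : ∀ x, dg x ^ 2 = ((univ.filter fun a => Fin.cons (α := fun _ => X) a x ∈ E) ×ˢ
            (univ.filter fun a => Fin.cons (α := fun _ => X) a x ∈ E)).card := by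
          intro x; rw [Finset.card_product, sq]
        simp_rw [e]
        rw [← Finset.card_sigma]
        refine Finset.card_bij (fun q _ => ⟨q.2, q.1⟩) ?_ ?_ ?_
        · rintro ⟨p, x⟩ h
          rw [Finset.mem_sigma] at h
          have := (hS _ _).1 h.2
          simp only [Finset.mem_sigma, mem_univ, true_and, Finset.mem_product, mem_filter]
          exact this
        · rintro ⟨p, x⟩ _ ⟨p', x'⟩ _ h
          simp only [Sigma.mk.injEq, heq_eq_eq] at h ⊢
          exact ⟨h.2, h.1⟩
        · rintro ⟨x, p⟩ h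
          simp only [Finset.mem_sigma, mem_univ, true_and, Finset.mem_product, mem_filter] at h
          exact ⟨⟨p, x⟩, by rw [Finset.mem_sigma]; exact ⟨mem_univ _, (hS _ _).2 h⟩, rfl⟩
      exact_mod_cast this
    have hpos : ∀ p ∈ (univ : Finset (X × X)), (0 : ℝ) ≤ (S p).card / q ^ k := by
      intro p _; positivity
    have hcX : ((univ : Finset (X × X)).card : ℝ) = q ^ 2 := by
      rw [Finset.card_univ, Fintype.card_prod]; push_cast; ring
    have hcK : ((univ : Finset (Fin k → X)).card : ℝ) = q ^ k := by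
      rw [Finset.card_univ, Fintype.card_fun, Fintype.card_fin]; push_cast; rfl
    have h1 := sum_pow_ge univ (fun p : X × X => ((S p).card : ℝ) / q ^ k) hpos (2 ^ k)
      (Finset.card_pos.2 univ_nonempty)
    have h2 := sum_pow_ge univ (fun x : Fin k → X => (dg x : ℝ)) (fun _ _ => by positivity) 2
      (Finset.card_pos.2 univ_nonempty)
    rw [hcX] at h1
    rw [hcK, ← hdg, ← hSsum] at h2
    -- `h2 : q ^ k * (|E| / q ^ k) ^ 2 ≤ ∑ |S p|`
    exact fin_calc hq0 h1 h2 (hcard ▸ rfl) fun p => ih (S p)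

end Pool.Agent.H23L
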