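import Pool.Agent.H23L.Tree
import Pool.Agent.H23.Upper2

/-!
Choice of the elements attached to the points of the Cantor space: local constancy of countably
many functions with small values, and avoidance of countably many rare events.
-/

namespace Pool.Agent.H23L

open Filter Finset Pool.Agent.H23

/-- Bits of a node. -/
def dgt {n : ℕ} (σ : Nd n) (i : ℕ) : Bool := if h : i < n then σ ⟨i, h⟩ else false

/-- The node of level `n` of a real. -/
def ndR (α : Cantor) (n : ℕ) : Nd n := fun i => α i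

theorem dgt_ndR (α : Cantor) {n i : ℕ} (h : i < n) : dgt (ndR α n) i = α i := by
  simp [dgt, h, ndR]

theorem ndR_eq_iff {α β : Cantor} {n : ℕ} : ndR α n = ndR β n ↔ codeR α n = codeR β n := by
  constructor
  · intro h
    exact codeR_eq_of_agree fun i hi => congrFun h ⟨i, hi⟩
  · intro h
    funext i
    exact agree_of_codeR_eq h i i.2

/-- A system: `n s` is the size parameter of stage `s`, `X s` the set of possible leaves,
`gen s x i b` the values attached to a leaf, `f` the functions with small values and `bad` the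
events to be avoided. -/
structure Sys (V : Type) where
  n : ℕ → ℕ
  n_ge : ∀ s, 2 ≤ n s
  X : ℕ → Type
  fX : ∀ s, Fintype (X s)
  nX : ∀ s, Nonempty (X s)
  gen : ∀ s, X s → ℕ → Bool → V
  f : ℕ → ℕ → (ℕ × ℕ → V) → ℕ
  df : ℕ → ℕ
  cf : ℕ → ℕ
  f_dep : ∀ m s E E', (∀ j < df m, ∀ i < df m, E (j, i) = E' (j, i)) → f m s E = f m s E'
  f_bd : ∀ m s E, f m s E ≤ n s ^ cf m
  bad : ℕ → ∀ s, X s → ℕ → Bool → (ℕ × ℕ → V) → Prop
  dg : ℕ → ℕ
  bad_dep : ∀ m s x k b E E', (∀ j < dg m, ∀ i < dg m, E (j, i) = E' (j, i)) →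
    bad m s x k b E → bad m s x k b E'
  L : ℕ → ℕ
  L_le : ∀ s, L s ≤ n s
  hard : ∀ m e, ∀ᶠ s in atTop, ∀ (J : ℕ → Prop) (x' : ℕ → X s) (dig : ℕ → ℕ → Bool)
    (η : ℕ → Bool), (∀ j, J j → dig j = η) → ∀ k < L s, ∀ b : Bool, (dg m ≤ k + 1 ∨ η k ≠ b) →
    ∀ (S : Finset (X s)), (∀ z ∈ S, ∀ E : ℕ × ℕ → V,
      (∀ j i, J j → E (j, i) = gen s z i (dig j (i - 1))) →
      (∀ j i, ¬ J j → E (j, i) = gen s (x' j) i (dig j (i - 1))) → bad m s z k b E) →
    S.card * n s ^ e ≤ @Fintype.card (X s) (fX s)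

namespace Sys

variable {V : Type} (Y : Sys V)

instance (s : ℕ) : Fintype (Y.X s) := Y.fX s
instance (s : ℕ) : Nonempty (Y.X s) := Y.nX s

/-- The environment given by nodes. -/
def envN (s : ℕ) {n : ℕ} (x : Nd n → Y.X s) (ν : ℕ → Nd n) : ℕ × ℕ → V := fun p =>
  Y.gen s (x (ν p.1)) p.2 (dgt (ν p.1) (p.2 - 1))

def cc (n : ℕ) : ℕ := (Finset.range n).sup Y.cf

theorem cc_mono : Monotone Y.cc := fun _ _ h => Finset.sup_mono (Finset.range_mono h)

def R (n : ℕ) : ℕ := (Y.cc n + 1) * (n * (2 ^ n) ^ n)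

theorem R_mono : Monotone Y.R := by
  intro a b h
  unfold R
  have h1 := Y.cc_mono h
  have h2 : (2 ^ a) ^ a ≤ (2 ^ b) ^ b := by
    rw [← pow_mul, ← pow_mul]
    exact Nat.pow_le_pow_right (by norm_num) (Nat.mul_le_mul h h)
  exact Nat.mul_le_mul (by omega) (Nat.mul_le_mul h h2)

/-- Colours. -/
abbrev Col (s n : ℕ) : Type := (Fin n × (Fin n → Nd n)) → Fin (Y.n s ^ Y.cc n + 1)

def ext {n : ℕ} (ν : Fin n → Nd n) : ℕ → Nd n := fun j => if h : j < n then ν ⟨j, h⟩ else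
  fun _ => false

open scoped Classical in
noncomputable def F (s n : ℕ) (x : Nd n → Y.X s) : Y.Col s n := fun p =>
  if h : Y.f p.1 s (Y.envN s x (ext p.2)) < Y.n s ^ Y.cc n + 1 then ⟨_, h⟩ else 0

theorem card_Col (s n : ℕ) : Fintype.card (Y.Col s n) ≤ Y.n s ^ Y.R n := by
  have h1 : Fintype.card (Y.Col s n) = (Y.n s ^ Y.cc n + 1) ^ (n * (2 ^ n) ^ n) := by
    simp [Col]
  rw [h1]
  unfold R
  conv_rhs => rw [pow_mul]
  refine Nat.pow_le_pow_left ?_ _
  have h2 := Y.n_ge s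
  have h3 : 1 ≤ Y.n s ^ Y.cc n := Nat.one_le_pow _ _ (by omega)
  calc Y.n s ^ Y.cc n + 1 ≤ Y.n s ^ Y.cc n * 2 := by omega
    _ ≤ Y.n s ^ Y.cc n * Y.n s := Nat.mul_le_mul_left _ h2
    _ = Y.n s ^ (Y.cc n + 1) := by rw [pow_succ]

theorem exists_sets' (s : ℕ) : ∃ (E : ∀ n, Finset (Nd n → Y.X s)) (c : ∀ n, Y.Col s n),
      (∀ n, Fintype.card (Y.X s) ^ 2 ^ n ≤ (E n).card * Y.n s ^ (Y.R n * qq n)) ∧
      (∀ n, ∀ y ∈ E n, Y.F s n y = c n) ∧ (∀ n, E (n + 1) ⊆ up (E n)) := by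
  obtain ⟨E, c, h1, h2, h3⟩ := exists_sets (X := Y.X s) (Y.Col s) (fun n => Y.n s ^ Y.R n)
    (fun n => Y.card_Col s n)
    (fun a b h => Nat.pow_le_pow_right (by have := Y.n_ge s; omega) (Y.R_mono h))
    (fun n => Nat.one_le_pow _ _ (by have := Y.n_ge s; omega)) (Y.F s)
  refine ⟨E, c, fun n => ?_, h2, h3⟩
  have h4 := h1 n
  have hn : (0 : ℝ) < Y.n s := by have := Y.n_ge s; exact_mod_cast (by omega : 0 < Y.n s)
  have hX : (0 : ℝ) < (Fintype.card (Y.X s) : ℝ) := by exact_mod_cast Fintype.card_pos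
  push_cast at h4
  rw [div_le_div_iff₀ (by positivity) (by positivity), one_mul, ← pow_mul] at h4
  exact_mod_cast h4

theorem count_fiber {I X : Type} [Fintype I] [DecidableEq I] [Fintype X] (P : (I → X) → Prop)
    [DecidablePred P] (τ : I) (q : ℕ)
    (h : ∀ y0 : I → X, (univ.filter fun z => P (Function.update y0 τ z)).card * q ≤
      Fintype.card X) :
    (univ.filter P).card * q ≤ Fintype.card X ^ Fintype.card I := by
  classical
  rcases Nat.eq_zero_or_pos (Fintype.card X) with h0 | h0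
  · have hX : IsEmpty X := Fintype.card_eq_zero_iff.1 h0
    have : IsEmpty (I → X) := ⟨fun y => hX.elim (y τ)⟩
    have : (univ.filter P) = ∅ := by
      ext y; exact this.elim y
    rw [this]; simp
  have h1 : (univ.filter P).card * Fintype.card X =
      ∑ y0 : I → X, (univ.filter fun z => P (Function.update y0 τ z)).card := by
    rw [← Finset.card_sigma]
    have : (univ.filter P).card * Fintype.card X = ((univ.filter P) ×ˢ (univ : Finset X)).card := by
      rw [Finset.card_product, Finset.card_univ]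
    rw [this]
    symm
    refine Finset.card_bij (fun q _ => (Function.update q.1 τ q.2, q.1 τ)) ?_ ?_ ?_
    · rintro ⟨y, z⟩ hq
      simp only [Finset.mem_sigma, mem_univ, true_and, Finset.mem_filter] at hq
      simp only [Finset.mem_product, mem_filter, mem_univ, true_and, and_true]
      exact hq
    · rintro ⟨y, z⟩ _ ⟨y', z'⟩ _ he
      simp only [Prod.mk.injEq] at he
      obtain ⟨he1, he2⟩ := he
      have hz : z = z' := by
        have := congrFun he1 τ
        simpa using this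
      have hy : y = y' := by
        funext i
        by_cases hi : i = τ
        · subst hi; exact he2
        · have := congrFun he1 i
          simpa [hi] using this
      subst hz; subst hy; rfl
    · rintro ⟨y, x⟩ hy
      simp only [Finset.mem_product, mem_filter, mem_univ, true_and, and_true] at hy
      refine ⟨⟨Function.update y τ x, y τ⟩, ?_, ?_⟩
      · simp only [Finset.mem_sigma, mem_univ, true_and, Finset.mem_filter]
        simpa using hy
      · simp
  have h2 : (univ.filter P).card * q * Fintype.card X ≤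
      Fintype.card X ^ Fintype.card I * Fintype.card X := by
    calc (univ.filter P).card * q * Fintype.card X
        = ((univ.filter P).card * Fintype.card X) * q := by ring
      _ = ∑ y0 : I → X, (univ.filter fun z => P (Function.update y0 τ z)).card * q := by
          rw [h1, Finset.sum_mul]
      _ ≤ ∑ _y0 : I → X, Fintype.card X := Finset.sum_le_sum fun y _ => h y
      _ = Fintype.card X ^ Fintype.card I * Fintype.card X := by
          rw [Finset.sum_const, Finset.card_univ, Fintype.card_fun, smul_eq_mul]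
  exact Nat.le_of_mul_le_mul_right h2 h0

/-- The hardness hypothesis at one stage. -/
def Hd (m e s : ℕ) : Prop := ∀ (J : ℕ → Prop) (x' : ℕ → Y.X s) (dig : ℕ → ℕ → Bool)
    (η : ℕ → Bool), (∀ j, J j → dig j = η) → ∀ k < Y.L s, ∀ b : Bool,
    (Y.dg m ≤ k + 1 ∨ η k ≠ b) →
    ∀ (S : Finset (Y.X s)), (∀ z ∈ S, ∀ E : ℕ × ℕ → V,
      (∀ j i, J j → E (j, i) = Y.gen s z i (dig j (i - 1))) →
      (∀ j i, ¬ J j → E (j, i) = Y.gen s (x' j) i (dig j (i - 1))) → Y.bad m s z k b E) →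
    S.card * Y.n s ^ e ≤ Fintype.card (Y.X s)

/-- One bad event. -/
def Ev (s N m : ℕ) (β : Fin N → Nd N) (j : Fin N) (k : ℕ) (b : Bool) (y : Nd N → Y.X s) : Prop :=
  (Y.dg m ≤ k + 1 ∨ dgt (β j) k ≠ b) ∧ Y.bad m s (y (β j)) k b (Y.envN s y (ext β))

open scoped Classical in
theorem card_Ev {s N m e : ℕ} (h : Y.Hd m e s) (β : Fin N → Nd N) (j : Fin N) {k : ℕ}
    (hk : k < Y.L s) (b : Bool) :
    (univ.filter fun y => Y.Ev s N m β j k b y).card * Y.n s ^ e ≤
      Fintype.card (Y.X s) ^ 2 ^ N := by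
  have hc : Fintype.card (Nd N) = 2 ^ N := by simp
  rw [← hc]
  refine count_fiber _ (β j) _ fun y0 => ?_
  by_cases hcond : Y.dg m ≤ k + 1 ∨ dgt (β j) k ≠ b
  swap
  · have : (univ.filter fun z => Y.Ev s N m β j k b (Function.update y0 (β j) z)) = ∅ := by
      ext z; simp only [mem_filter, mem_univ, true_and, notMem_empty, iff_false]
      exact fun h => hcond h.1
    rw [this]; simp
  refine h (fun i => ext β i = β j) (fun i => y0 (ext β i)) (fun i => dgt (ext β i))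
    (dgt (β j)) (fun i hi => by rw [hi]) k hk b hcond _ fun z hz E hE1 hE2 => ?_
  simp only [mem_filter, mem_univ, true_and] at hz
  have h1 := hz.2
  rw [Function.update_self] at h1
  have h2 : Y.envN s (Function.update y0 (β j) z) (ext β) = E := by
    funext ⟨i, l⟩
    unfold envN
    by_cases hi : ext β i = β j
    · rw [hE1 i l hi]
      simp only [hi, Function.update_self]
    · rw [hE2 i l hi]
      simp only [Function.update_of_ne hi]
  rw [h2] at h1
  exact h1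

/-- the exponent needed at level `N`. -/
def T (N : ℕ) : ℕ := Y.R N * qq N + (N * N + 2 * N + 4)

open scoped Classical in
theorem exists_leaf (s N : ℕ) (h : ∀ m < N, Y.Hd m (Y.T N) s) : ∃ y : Nd N → Y.X s,
    (∀ n, n ≤ N → ∀ c c' : Nd n → Nd N, (∀ (σ : Nd n) (i : Fin n), dgt (c σ) i = σ i) →
      (∀ (σ : Nd n) (i : Fin n), dgt (c' σ) i = σ i) → Y.F s n (y ∘ c) = Y.F s n (y ∘ c')) ∧
    ∀ m < N, ∀ β j, ∀ k < Y.L s, ∀ b, ¬ Y.Ev s N m β j k b y := by
  obtain ⟨E, c, h1, h2, h3⟩ := Y.exists_sets' s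
  let idx : Finset ((Fin N × (Fin N → Nd N)) × (Fin N × (Fin (Y.L s) × Bool))) := univ
  let B : Finset (Nd N → Y.X s) := idx.biUnion fun p =>
    univ.filter fun y => Y.Ev s N p.1.1 p.1.2 p.2.1 p.2.2.1 p.2.2.2 y
  have hidx : idx.card = N * (2 ^ N) ^ N * (N * (Y.L s * 2)) := by
    simp [idx]
  have hB : B.card * Y.n s ^ Y.T N ≤
      N * (2 ^ N) ^ N * (N * (Y.L s * 2)) * Fintype.card (Y.X s) ^ 2 ^ N := by
    rw [← hidx]
    calc B.card * Y.n s ^ Y.T N
        ≤ (∑ p ∈ idx, (univ.filter fun y =>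
            Y.Ev s N p.1.1 p.1.2 p.2.1 p.2.2.1 p.2.2.2 y).card) * Y.n s ^ Y.T N :=
          Nat.mul_le_mul_right _ Finset.card_biUnion_le
      _ = ∑ p ∈ idx, (univ.filter fun y =>
            Y.Ev s N p.1.1 p.1.2 p.2.1 p.2.2.1 p.2.2.2 y).card * Y.n s ^ Y.T N := by
          rw [Finset.sum_mul]
      _ ≤ ∑ _p ∈ idx, Fintype.card (Y.X s) ^ 2 ^ N :=
          Finset.sum_le_sum fun p _ => Y.card_Ev (h p.1.1 p.1.1.2) _ _ p.2.2.1.2 _
      _ = idx.card * Fintype.card (Y.X s) ^ 2 ^ N := by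
          rw [Finset.sum_const, smul_eq_mul]
  have hn := Y.n_ge s
  have hbig : N * (2 ^ N) ^ N * (N * (Y.L s * 2)) ≤ Y.n s ^ (N * N + 2 * N + 2) := by
    have a1 : N ≤ Y.n s ^ N := (Nat.lt_pow_self (by omega : 1 < Y.n s)).le
    have a2 : (2 ^ N) ^ N ≤ Y.n s ^ (N * N) := by
      rw [← pow_mul]; exact Nat.pow_le_pow_left hn _
    have a3 := Y.L_le s
    calc N * (2 ^ N) ^ N * (N * (Y.L s * 2))
        ≤ Y.n s ^ N * Y.n s ^ (N * N) * (Y.n s ^ N * (Y.n s * Y.n s)) := by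
          gcongr
      _ = Y.n s ^ (N * N + 2 * N + 2) := by ring
  have hX : 0 < Fintype.card (Y.X s) ^ 2 ^ N := pow_pos Fintype.card_pos _
  have hB2 : B.card * Y.n s ^ (Y.R N * qq N) < Fintype.card (Y.X s) ^ 2 ^ N := by
    have h4 : B.card * Y.n s ^ (Y.R N * qq N) * Y.n s ^ (N * N + 2 * N + 4) ≤
        Y.n s ^ (N * N + 2 * N + 2) * Fintype.card (Y.X s) ^ 2 ^ N := by
      calc _ = B.card * Y.n s ^ Y.T N := by unfold T; ring
        _ ≤ _ := hB
        _ ≤ _ := Nat.mul_le_mul_right _ hbig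
    have h5 : 0 < Y.n s ^ (N * N + 2 * N + 2) := by positivity
    have h6 : B.card * Y.n s ^ (Y.R N * qq N) * Y.n s ^ 2 ≤ Fintype.card (Y.X s) ^ 2 ^ N := by
      refine Nat.le_of_mul_le_mul_left ?_ h5
      calc _ = B.card * Y.n s ^ (Y.R N * qq N) * Y.n s ^ (N * N + 2 * N + 4) := by ring
        _ ≤ _ := h4
    have h7 : 2 ≤ Y.n s ^ 2 := by nlinarith
    by_contra hcon
    push Not at hcon
    have h8 : Fintype.card (Y.X s) ^ 2 ^ N * 2 ≤ Fintype.card (Y.X s) ^ 2 ^ N := by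
      calc Fintype.card (Y.X s) ^ 2 ^ N * 2
          ≤ B.card * Y.n s ^ (Y.R N * qq N) * Y.n s ^ 2 := Nat.mul_le_mul hcon h7
        _ ≤ _ := h6
    omega
  have hEB : ¬ E N ⊆ B := by
    intro hcon
    have h4 := Finset.card_le_card hcon
    have h5 := h1 N
    have h6 : (E N).card * Y.n s ^ (Y.R N * qq N) ≤ B.card * Y.n s ^ (Y.R N * qq N) :=
      Nat.mul_le_mul_right _ h4
    omega
  obtain ⟨y, hyE, hyB⟩ := Finset.not_subset.1 hEB
  refine ⟨y, fun n hn c1 c2 hc1 hc2 => ?_, fun m hm β j k hk b hEv => ?_⟩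
  · have hsel : ∀ c : Nd n → Nd N, (∀ (σ : Nd n) (i : Fin n), dgt (c σ) i = σ i) →
        y ∘ c ∈ E n := by
      intro c hc
      refine sel_mem h3 hn hyE c fun σ i => ?_
      have := hc σ i
      unfold dgt at this
      rw [dif_pos (i.2.trans_le hn)] at this
      exact this
    rw [h2 n _ (hsel c1 hc1), h2 n _ (hsel c2 hc2)]
  · apply hyB
    rw [Finset.mem_biUnion]
    exact ⟨((⟨m, hm⟩, β), (j, (⟨k, hk⟩, b))), mem_univ _, by
      simp only [mem_filter, mem_univ, true_and]; exact hEv⟩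

/-- The result of the construction. -/
structure Dat where
  N : ℕ → ℕ
  leaf : ∀ s, Nd (N s) → Y.X s
  tend : ∀ k, ∀ᶠ s in atTop, k ≤ N s
  hom : ∀ s n, n ≤ N s → ∀ c c' : Nd n → Nd (N s), (∀ (σ : Nd n) (i : Fin n), dgt (c σ) i = σ i) →
      (∀ (σ : Nd n) (i : Fin n), dgt (c' σ) i = σ i) →
      Y.F s n (leaf s ∘ c) = Y.F s n (leaf s ∘ c')
  avoid' : ∀ s, ∀ m < N s, ∀ β j, ∀ k < Y.L s, ∀ b, ¬ Y.Ev s (N s) m β j k b (leaf s)

theorem exists_dat : Nonempty Y.Dat := by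
  classical
  let Q : ℕ → ℕ → Prop := fun s N => ∀ m < N, Y.Hd m (Y.T N) s
  have hQ0 : ∀ s, Q s 0 := fun s m hm => absurd hm (Nat.not_lt_zero m)
  let N : ℕ → ℕ := fun s => Nat.findGreatest (Q s) s
  have hN : ∀ s, Q s (N s) := fun s => Nat.findGreatest_spec (Nat.zero_le s) (hQ0 s)
  choose y hy1 hy2 using fun s => Y.exists_leaf s (N s) (hN s)
  refine ⟨⟨N, y, fun k => ?_, fun s n hn => hy1 s n hn, fun s m hm => hy2 s m hm⟩⟩
  have h1 : ∀ᶠ s in atTop, ∀ m ∈ Finset.range k, Y.Hd m (Y.T k) s := by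
    rw [Filter.eventually_all_finset]
    intro m _
    exact Y.hard m (Y.T k)
  filter_upwards [h1, eventually_ge_atTop k] with s hs1 hs2
  exact Nat.le_findGreatest hs2 fun m hm => hs1 m (Finset.mem_range.2 hm)

variable {Y}

/-- The environment at stage `s` given by a sequence of reals. -/
def Dat.env (D : Y.Dat) (A : ℕ → Cantor) (s : ℕ) : ℕ × ℕ → V := fun p =>
  Y.gen s (D.leaf s (ndR (A p.1) (D.N s))) p.2 (A p.1 (p.2 - 1))

open scoped Classical in
/-- the selection given by reals. -/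
noncomputable def selc (A : ℕ → Cantor) (d n N : ℕ) : Nd n → Nd N := fun σ =>
  if h : ∃ j < d, ndR (A j) n = σ then ndR (A h.choose) N else fun i => dgt σ i

theorem selc_dgt (A : ℕ → Cantor) (d : ℕ) {n N : ℕ} (h : n ≤ N) (σ : Nd n) (i : Fin n) :
    dgt (selc A d n N σ) i = σ i := by
  unfold selc
  split_ifs with h1
  · rw [dgt_ndR _ (i.2.trans_le h)]
    conv_rhs => rw [← h1.choose_spec.2]
    rfl
  · simp [dgt, i.2.trans_le h]

theorem selc_eq {A : ℕ → Cantor} {d n N : ℕ}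
    (h : ∀ i < d, ∀ j < d, codeR (A i) n = codeR (A j) n → A i = A j) {j : ℕ} (hj : j < d) :
    selc A d n N (ndR (A j) n) = ndR (A j) N := by
  unfold selc
  have h1 : ∃ j' < d, ndR (A j') n = ndR (A j) n := ⟨j, hj, rfl⟩
  rw [dif_pos h1]
  rw [h _ h1.choose_spec.1 _ hj (ndR_eq_iff.1 h1.choose_spec.2)]

/-- Local constancy. -/
theorem Dat.lc (D : Y.Dat) (m : ℕ) {n s : ℕ} (hm : m < n) (hd : Y.df m ≤ n) (hs : n ≤ D.N s)
    {A A' : ℕ → Cantor} (h : CCell (Y.df m) n A A') :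
    Y.f m s (D.env A s) = Y.f m s (D.env A' s) := by
  have key : ∀ A : ℕ → Cantor,
      (∀ i < Y.df m, ∀ j < Y.df m, codeR (A i) n = codeR (A j) n → A i = A j) →
      ∀ ν : Fin n → Nd n, (∀ j : Fin n, (j : ℕ) < Y.df m → ν j = ndR (A j) n) →
      Y.f m s (Y.envN s (D.leaf s ∘ selc A (Y.df m) n (D.N s)) (ext ν)) =
        Y.f m s (D.env A s) := by
    intro A hA ν hν
    apply Y.f_dep
    intro j hj i hi
    have hjn : j < n := hj.trans_le hd
    have e : ext ν j = ndR (A j) n := by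
      unfold ext
      rw [dif_pos hjn]
      exact hν ⟨j, hjn⟩ hj
    unfold envN Dat.env
    simp only [e, Function.comp_apply]
    rw [selc_eq hA hj, dgt_ndR _ (by omega)]
  let ν : Fin n → Nd n := fun j => ndR (A j) n
  have hν' : ∀ j : Fin n, (j : ℕ) < Y.df m → ν j = ndR (A' j) n := fun j hj =>
    ndR_eq_iff.2 (h.1 j hj)
  rw [← key A h.2.1 ν fun _ _ => rfl, ← key A' h.2.2 ν hν']
  have h1 := D.hom s n hs (selc A (Y.df m) n (D.N s)) (selc A' (Y.df m) n (D.N s))
    (selc_dgt A _ hs) (selc_dgt A' _ hs)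
  have h2 := congrFun h1 (⟨m, hm⟩, ν)
  have hb : ∀ E, Y.f m s E < Y.n s ^ Y.cc n + 1 := by
    intro E
    refine Nat.lt_succ_of_le ((Y.f_bd m s E).trans ?_)
    exact Nat.pow_le_pow_right (by have := Y.n_ge s; omega)
      (Finset.le_sup (f := Y.cf) (Finset.mem_range.2 hm))
  unfold F at h2
  simp only at h2
  rw [dif_pos (hb _), dif_pos (hb _)] at h2
  exact congrArg Fin.val h2

/-- Avoidance of the bad events. -/
theorem Dat.avoid (D : Y.Dat) {m s : ℕ} (hm : m < D.N s) (hd : Y.dg m ≤ D.N s) (A : ℕ → Cantor)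
    {j : ℕ} (hj : j < D.N s) {k : ℕ} (hk : k < Y.L s) {b : Bool}
    (h : Y.dg m ≤ k + 1 ∨ A j k ≠ b) :
    ¬ Y.bad m s (D.leaf s (ndR (A j) (D.N s))) k b (D.env A s) := by
  intro hbad
  refine D.avoid' s m hm (fun j => ndR (A j) (D.N s)) ⟨j, hj⟩ k hk b ⟨?_, ?_⟩
  · rcases h with h | h
    · exact Or.inl h
    · by_cases hkN : k < D.N s
      · right
        rw [dgt_ndR _ hkN]
        exact h
      · left; omega
  · refine Y.bad_dep m s _ k b _ _ (fun j' hj' i hi => ?_) hbad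
    have hjn : j' < D.N s := hj'.trans_le hd
    have e : ext (fun j : Fin (D.N s) => ndR (A j) (D.N s)) j' = ndR (A j') (D.N s) := by
      unfold ext
      rw [dif_pos hjn]
    unfold envN Dat.env
    simp only [e]
    rw [dgt_ndR _ (by omega)]

end Sys

end Pool.Agent.H23L
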