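import Pool.Agent.H23L.Dbl

/-!
The tree lemma: homogeneous trees for finitely many colourings with few colours.
-/

namespace Pool.Agent.H23L

open Finset

section gen

variable {I X : Type} [Fintype I] [Fintype X] [Nonempty X]

theorem dbl_gen (E : Finset (I → X)) :
    ((E.card : ℝ) / (Fintype.card X : ℝ) ^ Fintype.card I) ^ (2 ^ Fintype.card I) ≤
      (dbl E).card / (Fintype.card X : ℝ) ^ (2 * Fintype.card I) := by
  classical
  let e : I ≃ Fin (Fintype.card I) := Fintype.equivFin I
  let E' : Finset (Fin (Fintype.card I) → X) := univ.filter fun x => x ∘ e ∈ E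
  have h := dbl_fin X _ E'
  have h1 : E'.card = E.card := by
    refine Finset.card_bij (fun x _ => x ∘ e) ?_ ?_ ?_
    · intro x hx
      simpa [E'] using hx
    · intro x _ x' _ hxx
      funext i
      have := congrFun hxx (e.symm i)
      simpa using this
    · intro x hx
      refine ⟨x ∘ e.symm, ?_, ?_⟩
      · simp only [E', mem_filter, mem_univ, true_and]
        convert hx using 1
        funext i; simp
      · funext i; simp
  have h2 : (dbl E').card = (dbl E).card := by
    refine Finset.card_bij (fun x _ => x ∘ e) ?_ ?_ ?_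
    · intro x hx
      rw [mem_dbl] at hx ⊢
      intro g
      have := hx (g ∘ e.symm)
      simp only [E', mem_filter, mem_univ, true_and] at this
      convert this using 1
      funext i; simp
    · intro x _ x' _ hxx
      funext i
      have := congrFun hxx (e.symm i)
      simpa using this
    · intro x hx
      refine ⟨x ∘ e.symm, ?_, ?_⟩
      · rw [mem_dbl] at hx ⊢
        intro g
        simp only [E', mem_filter, mem_univ, true_and]
        have := hx (g ∘ e)
        convert this using 1
        funext i; simp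
      · funext i; simp
  rw [h1, h2] at h
  exact h

end gen

/-- Nodes of level `n`. -/
abbrev Nd (n : ℕ) := Fin n → Bool

/-- Adding a bit to a node. -/
def ex {n : ℕ} (σ : Nd n) (b : Bool) : Nd (n + 1) := Fin.snoc (α := fun _ => Bool) σ b

theorem ex_init {n : ℕ} (σ : Nd (n + 1)) : ex (fun i => σ i.castSucc) (σ (Fin.last n)) = σ := by
  funext i
  refine Fin.lastCases ?_ (fun i => ?_) i <;> simp [ex]

@[simp] theorem ex_castSucc {n : ℕ} (σ : Nd n) (b : Bool) (i : Fin n) :
    ex σ b i.castSucc = σ i := by simp [ex]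
@[simp] theorem ex_last {n : ℕ} (σ : Nd n) (b : Bool) : ex σ b (Fin.last n) = b := by simp [ex]

section tree

variable {X : Type} [Fintype X]

open scoped Classical in
/-- The blow-up of a set of tuples. -/
noncomputable def up {n : ℕ} (E : Finset (Nd n → X)) : Finset (Nd (n + 1) → X) :=
  univ.filter fun y => ∀ g : Nd n → Bool, (fun σ => y (ex σ (g σ))) ∈ E

theorem mem_up {n : ℕ} {E : Finset (Nd n → X)} {y : Nd (n + 1) → X} :
    y ∈ up E ↔ ∀ g : Nd n → Bool, (fun σ => y (ex σ (g σ))) ∈ E := by
  classical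
  simp [up]

theorem card_up [Nonempty X] {n : ℕ} (E : Finset (Nd n → X)) :
    ((E.card : ℝ) / (Fintype.card X : ℝ) ^ 2 ^ n) ^ (2 ^ 2 ^ n) ≤
      (up E).card / (Fintype.card X : ℝ) ^ 2 ^ (n + 1) := by
  classical
  have h := dbl_gen E
  have hc : Fintype.card (Nd n) = 2 ^ n := by simp
  rw [hc] at h
  have h2 : (dbl E).card = (up E).card := by
    refine Finset.card_bij (fun y _ => fun τ : Nd (n + 1) =>
      if τ (Fin.last n) then (y fun i => τ i.castSucc).2 else (y fun i => τ i.castSucc).1) ?_ ?_ ?_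
    · intro y hy
      rw [mem_dbl] at hy
      rw [mem_up]
      intro g
      have := hy g
      convert this using 1
      funext σ
      simp
    · intro y _ y' _ h
      funext σ
      have h0 := congrFun h (ex σ false)
      have h1 := congrFun h (ex σ true)
      simp at h0 h1
      exact Prod.ext h0 h1
    · intro y hy
      refine ⟨fun σ => (y (ex σ false), y (ex σ true)), ?_, ?_⟩
      · rw [mem_up] at hy
        rw [mem_dbl]
        intro g
        convert hy g using 1
        funext σ
        cases g σ <;> rfl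
      · funext τ
        cases h : τ (Fin.last n)
        · simp only
          conv_rhs => rw [← ex_init τ, h]
          rfl
        · simp only
          conv_rhs => rw [← ex_init τ, h]
          rfl
  rw [h2] at h
  have e : 2 * 2 ^ n = 2 ^ (n + 1) := by ring
  rw [e] at h
  exact h

/-- The exponents of the densities. -/
def qq : ℕ → ℕ
  | 0 => 1
  | n + 1 => qq n * 2 ^ 2 ^ n + 1

open scoped Classical in
theorem exists_popular {Y C : Type} [Fintype C] (E : Finset Y) (F : Y → C) (r : ℕ)
    (hr : Fintype.card C ≤ r) (hE : 0 < E.card) :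
    ∃ c, E.card ≤ r * (E.filter fun y => F y = c).card := by
  obtain ⟨y0, hy0⟩ := Finset.card_pos.1 hE
  have : Nonempty C := ⟨F y0⟩
  by_contra hcon
  push Not at hcon
  have h1 : E.card = ∑ c : C, (E.filter fun y => F y = c).card :=
    Finset.card_eq_sum_card_fiberwise (fun _ _ => mem_univ _)
  have h2 : r * E.card < Fintype.card C * E.card := by
    calc r * E.card = ∑ c : C, r * (E.filter fun y => F y = c).card := by
          rw [← Finset.mul_sum, ← h1]
      _ < ∑ _c : C, E.card := Finset.sum_lt_sum_of_nonempty univ_nonempty fun c _ => hcon c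
      _ = Fintype.card C * E.card := by simp
  have h3 := lt_of_mul_lt_mul_right h2 (Nat.zero_le _)
  omega

open scoped Classical in
/-- The tree lemma. -/
theorem exists_sets [Nonempty X] (C : ℕ → Type) [∀ n, Fintype (C n)] (r : ℕ → ℕ)
    (hr : ∀ n, Fintype.card (C n) ≤ r n) (hmono : Monotone r) (hr1 : ∀ n, 1 ≤ r n)
    (F : ∀ n, (Nd n → X) → C n) :
    ∃ (E : ∀ n, Finset (Nd n → X)) (c : ∀ n, C n),
      (∀ n, 1 / (r n : ℝ) ^ qq n ≤ (E n).card / (Fintype.card X : ℝ) ^ 2 ^ n) ∧
      (∀ n, ∀ y ∈ E n, F n y = c n) ∧ (∀ n, E (n + 1) ⊆ up (E n)) := by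
  have hq0 : (0 : ℝ) < (Fintype.card X : ℝ) := by exact_mod_cast Fintype.card_pos
  have hrpos : ∀ n, (0 : ℝ) < r n := fun n => by exact_mod_cast hr1 n
  -- one step
  have step : ∀ n (E0 : Finset (Nd n → X)), 0 < E0.card → ∃ (c : C n) (E : Finset (Nd n → X)),
      E ⊆ E0 ∧ (∀ y ∈ E, F n y = c) ∧ (E0.card : ℝ) ≤ r n * E.card := by
    intro n E0 h0
    obtain ⟨c, hc⟩ := exists_popular E0 (F n) (r n) (hr n) h0
    refine ⟨c, E0.filter fun y => F n y = c, Finset.filter_subset _ _, ?_, ?_⟩
    · intro y hy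
      exact (Finset.mem_filter.1 hy).2
    · exact_mod_cast hc
  let Good : ∀ n, C n × Finset (Nd n → X) → Prop := fun n p =>
    1 / (r n : ℝ) ^ qq n ≤ (p.2.card : ℝ) / (Fintype.card X : ℝ) ^ 2 ^ n ∧
      ∀ y ∈ p.2, F n y = p.1
  have base : ∃ p, Good 0 p := by
    obtain ⟨c, E, -, h1, h2⟩ := step 0 univ (Finset.card_pos.2 univ_nonempty)
    refine ⟨(c, E), ?_, h1⟩
    have h3 : ((univ : Finset (Nd 0 → X)).card : ℝ) = (Fintype.card X : ℝ) ^ 2 ^ 0 := by
      rw [Finset.card_univ, Fintype.card_fun]
      simp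
    rw [h3] at h2
    simp only [qq, pow_one]
    rw [div_le_div_iff₀ (hrpos 0) (by positivity)]
    simpa [mul_comm] using h2
  have succ : ∀ n p, Good n p → ∃ p', Good (n + 1) p' ∧ p'.2 ⊆ up p.2 := by
    intro n p hp
    have h1 := card_up p.2
    have hup : 0 < (up p.2).card := by
      have h2 : 0 < ((p.2.card : ℝ) / (Fintype.card X : ℝ) ^ 2 ^ n) ^ (2 ^ 2 ^ n) := by
        have := lt_of_lt_of_le (by have := hrpos n; positivity) hp.1
        positivity
      have h3 := lt_of_lt_of_le h2 h1
      have h4 : (0 : ℝ) < (up p.2).card := by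
        by_contra hcon
        push Not at hcon
        have : ((up p.2).card : ℝ) = 0 := le_antisymm hcon (by positivity)
        rw [this, zero_div] at h3
        exact lt_irrefl _ h3
      exact_mod_cast h4
    obtain ⟨c, E, hE1, hE2, hE3⟩ := step (n + 1) (up p.2) hup
    refine ⟨(c, E), ⟨?_, hE2⟩, hE1⟩
    have h5 : 1 / (r (n + 1) : ℝ) ^ (qq n * 2 ^ 2 ^ n) ≤
        (up p.2).card / (Fintype.card X : ℝ) ^ 2 ^ (n + 1) := by
      refine le_trans ?_ h1
      have h6 : 1 / (r (n + 1) : ℝ) ^ (qq n) ≤ (p.2.card : ℝ) / (Fintype.card X : ℝ) ^ 2 ^ n := by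
        refine le_trans ?_ hp.1
        have h7 : (r n : ℝ) ≤ r (n + 1) := by exact_mod_cast hmono (Nat.le_succ n)
        exact one_div_le_one_div_of_le (pow_pos (hrpos n) _)
          (pow_le_pow_left₀ (hrpos n).le h7 _)
      have h8 := pow_le_pow_left₀ (by have := hrpos (n + 1); positivity) h6 (2 ^ 2 ^ n)
      refine le_trans (le_of_eq ?_) h8
      rw [div_pow, one_pow, ← pow_mul]
    change 1 / (r (n + 1) : ℝ) ^ (qq n * 2 ^ 2 ^ n + 1) ≤ _
    have h9 : ((up p.2).card : ℝ) / (Fintype.card X : ℝ) ^ 2 ^ (n + 1) ≤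
        r (n + 1) * ((E.card : ℝ) / (Fintype.card X : ℝ) ^ 2 ^ (n + 1)) := by
      rw [← mul_div_assoc]
      exact div_le_div_of_nonneg_right hE3 (by positivity)
    have h10 := h5.trans h9
    rw [pow_succ, ← div_div, div_le_iff₀ (hrpos (n + 1))]
    exact h10.trans (le_of_eq (mul_comm _ _))
  -- the sequence
  choose g hg1 hg2 using succ
  obtain ⟨p0, hp0⟩ := base
  let S : ∀ n, {p : C n × Finset (Nd n → X) // Good n p} := fun n =>
    Nat.rec ⟨p0, hp0⟩ (fun n p => ⟨g n p.1 p.2, hg1 n p.1 p.2⟩) n
  exact ⟨fun n => (S n).1.2, fun n => (S n).1.1, fun n => (S n).2.1, fun n => (S n).2.2,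
    fun n => hg2 n (S n).1 (S n).2⟩

theorem sel_aux {E : ∀ n, Finset (Nd n → X)} (hE : ∀ n, E (n + 1) ⊆ up (E n)) (k : ℕ) :
    ∀ (n N : ℕ) (hN : N = n + k) (y : Nd N → X), y ∈ E N → ∀ c : Nd n → Nd N,
      (∀ (σ : Nd n) (i : Fin n), c σ ⟨i, by have := i.2; omega⟩ = σ i) → y ∘ c ∈ E n := by
  classical
  induction k with
  | zero =>
    intro n N hN y hy c hc
    have hN' : N = n := hN
    subst hN'
    have : c = id := by
      funext σ i
      exact hc σ i
    rw [this]
    exact hy
  | succ k ih =>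
    intro n N hN y hy c hc
    let g : Nd n → Bool := fun σ => c σ ⟨n, by omega⟩
    let pad : Nd (n + 1) → Nd N := fun τ i =>
      if h : (i : ℕ) < n + 1 then τ ⟨i, h⟩ else false
    let c' : Nd (n + 1) → Nd N := fun τ =>
      if τ = ex (fun i => τ i.castSucc) (g fun i => τ i.castSucc) then
        c (fun i => τ i.castSucc) else pad τ
    have hc' : ∀ (τ : Nd (n + 1)) (i : Fin (n + 1)), c' τ ⟨i, by have := i.2; omega⟩ = τ i := by
      intro τ i
      by_cases hτ : τ = ex (fun i => τ i.castSucc) (g fun i => τ i.castSucc)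
      · simp only [c']
        rw [if_pos hτ]
        refine Fin.lastCases ?_ (fun i => ?_) i
        · conv_rhs => rw [hτ, ex_last]
          rfl
        · exact hc (fun i => τ i.castSucc) i
      · simp only [c']
        rw [if_neg hτ]
        simp only [pad]
        rw [dif_pos i.2]
    have h1 := ih (n + 1) N (by omega) y hy c' hc'
    have h2 := mem_up.1 (hE n h1) g
    have h3 : (fun σ => (y ∘ c') (ex σ (g σ))) = y ∘ c := by
      funext σ
      simp only [Function.comp_apply, c']
      have e : (fun i => ex σ (g σ) i.castSucc) = σ := by funext i; simp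
      rw [e, if_pos rfl]
    rw [h3] at h2
    exact h2

/-- A tuple in the set of level `N` composed with a selection is in the set of level `n`. -/
theorem sel_mem {E : ∀ n, Finset (Nd n → X)} (hE : ∀ n, E (n + 1) ⊆ up (E n)) {n N : ℕ}
    (h : n ≤ N) {y : Nd N → X} (hy : y ∈ E N) (c : Nd n → Nd N)
    (hc : ∀ (σ : Nd n) (i : Fin n), c σ ⟨i, i.2.trans_le h⟩ = σ i) : y ∘ c ∈ E n :=
  sel_aux hE (N - n) n N (by omega) y hy c hc

end tree

end Pool.Agent.H23L
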